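import Mathlib

/-!
# Project KP, module PRJ: the abstract projection argument
-/

set_option autoImplicit false

namespace Pool.Agent.Helper78.KP

open Filter
open scoped Topology

/-- the abstract projection argument -/
theorem absPRJ {E H : Type*} [NormedAddCommGroup E] [InnerProductSpace ℂ E] [CompleteSpace E]
    [NormedAddCommGroup H] [InnerProductSpace ℂ H] [CompleteSpace H]
    {ι : Type*} (K : Submodule ℂ E) (hK : IsClosed (K : Set E)) (d : ι → E) (p : ι → H)
    (hd : ∀ i, d i ∈ K) (δ : ℝ) (hδ : 0 < δ)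
    (hb : ∀ v ∈ K, ∀ a, (∀ i, inner ℂ (p i) a = inner ℂ (d i) v) → δ * ‖v‖ ^ 2 ≤ ‖a‖ ^ 2)
    (G : H) :
    ∃ v ∈ K, ∃ a, (∀ i, inner ℂ (p i) a = inner ℂ (d i) v) ∧
      ∀ N t, (∀ i, inner ℂ (p i) t = inner ℂ (d i) N) → inner ℂ (G - a) t = 0 := by
  classical
  -- the closed subspace of pairs
  let V : Submodule ℂ (E × H) :=
    { carrier := {q | q.1 ∈ K ∧ ∀ i, inner ℂ (p i) q.2 = inner ℂ (d i) q.1}
      add_mem' := by
        rintro a b ⟨ha, ha'⟩ ⟨hb, hb'⟩
        refine ⟨K.add_mem ha hb, fun i => ?_⟩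
        simp only [Prod.snd_add, Prod.fst_add, inner_add_right, ha' i, hb' i]
      zero_mem' := ⟨K.zero_mem, fun i => by simp⟩
      smul_mem' := by
        rintro c a ⟨ha, ha'⟩
        refine ⟨K.smul_mem c ha, fun i => ?_⟩
        simp only [Prod.smul_snd, Prod.smul_fst, inner_smul_right, ha' i] }
  have hVc : IsClosed (V : Set (E × H)) := by
    have h1 : (V : Set (E × H)) = (Prod.fst ⁻¹' (K : Set E)) ∩
        ⋂ i, {q : E × H | inner ℂ (p i) q.2 = inner ℂ (d i) q.1} := by
      ext q
      simp only [Set.mem_inter_iff, Set.mem_iInter]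
      exact Iff.rfl
    rw [h1]
    refine (hK.preimage continuous_fst).inter (isClosed_iInter fun i => ?_)
    exact isClosed_eq (Continuous.inner continuous_const continuous_snd)
      (Continuous.inner continuous_const continuous_fst)
  have : CompleteSpace V := hVc.completeSpace_coe
  let T : V →L[ℂ] H := (ContinuousLinearMap.snd ℂ E H).comp V.subtypeL
  have hT : ∀ q : V, T q = (q : E × H).2 := fun q => rfl
  -- antilipschitz
  let c : ℝ := max (Real.sqrt (1 / δ)) 1
  have hc1 : 1 ≤ c := le_max_right _ _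
  have hlow : ∀ q : V, ‖q‖ ≤ c * ‖T q‖ := by
    intro q
    have hq := q.2
    have h1 := hb _ hq.1 _ hq.2
    have h2 : ‖(q : E × H).1‖ ≤ Real.sqrt (1 / δ) * ‖(q : E × H).2‖ := by
      have h3 : ‖(q : E × H).1‖ ^ 2 ≤ (1 / δ) * ‖(q : E × H).2‖ ^ 2 := by
        rw [div_mul_eq_mul_div, one_mul, le_div_iff₀ hδ, mul_comm]
        exact h1
      have h4 := Real.sqrt_le_sqrt h3
      rw [Real.sqrt_sq (norm_nonneg _), Real.sqrt_mul (by positivity),
        Real.sqrt_sq (norm_nonneg _)] at h4
      exact h4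
    have h3 : ‖q‖ = max ‖(q : E × H).1‖ ‖(q : E × H).2‖ := rfl
    rw [h3, hT]
    refine max_le (h2.trans ?_) ?_
    · exact mul_le_mul_of_nonneg_right (le_max_left _ _) (norm_nonneg _)
    · calc ‖(q : E × H).2‖ = 1 * ‖(q : E × H).2‖ := (one_mul _).symm
        _ ≤ c * ‖(q : E × H).2‖ := mul_le_mul_of_nonneg_right hc1 (norm_nonneg _)
  have hc0 : 0 ≤ c := le_trans zero_le_one hc1
  have hanti : AntilipschitzWith (Real.toNNReal c) T := by
    refine AddMonoidHomClass.antilipschitz_of_bound T fun q => ?_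
    rw [Real.coe_toNNReal c hc0]
    exact hlow q
  have hcl : IsClosed (Set.range T) := hanti.isClosed_range T.uniformContinuous
  let A : Submodule ℂ H := LinearMap.range (T : V →ₗ[ℂ] H)
  have hAc : IsClosed (A : Set H) := by
    have : (A : Set H) = Set.range T := by
      ext x
      simp [A]
    rw [this]
    exact hcl
  have : CompleteSpace A := hAc.completeSpace_coe
  obtain ⟨a, haA, hort⟩ : ∃ a ∈ A, ∀ w ∈ A, inner ℂ (G - a) w = 0 := by
    refine ⟨A.starProjection G, A.starProjection_apply_mem G, fun w hw => ?_⟩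
    exact A.starProjection_inner_eq_zero G w hw
  obtain ⟨q, hq⟩ : ∃ q : V, T q = a := by
    obtain ⟨q, hq⟩ := haA
    exact ⟨q, hq⟩
  have hqV := q.2
  refine ⟨(q : E × H).1, hqV.1, a, ?_, ?_⟩
  · intro i
    rw [← hq, hT]
    exact hqV.2 i
  · intro N t ht
    have : CompleteSpace K := hK.completeSpace_coe
    -- decompose `N`
    have hN1 : K.starProjection N ∈ K := K.starProjection_apply_mem N
    have hN2 : ∀ w ∈ K, inner ℂ (N - K.starProjection N) w = 0 :=
      fun w hw => K.starProjection_inner_eq_zero N w hw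
    have hmem : ((K.starProjection N, t) : E × H) ∈ V := by
      refine ⟨hN1, fun i => ?_⟩
      show inner ℂ (p i) t = inner ℂ (d i) (K.starProjection N)
      rw [ht i]
      have h5 : inner ℂ (d i) (N - K.starProjection N) = 0 := by
        rw [← inner_conj_symm, hN2 _ (hd i), map_zero]
      rw [inner_sub_right, sub_eq_zero] at h5
      exact h5
    exact hort t ⟨⟨_, hmem⟩, rfl⟩

end Pool.Agent.Helper78.KP
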