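import Pool.Agent.Helper52.KP.StL
import Pool.Agent.Helper88.JT.Holo
import Pool.Agent.Helper78.KP.Abs

/-!
# Project KP, module PRJ: solution of the dbar problem with estimate
-/

set_option autoImplicit false

namespace Pool.Agent.Helper78.KP

open Pool.Agent.Helper52.KP MeasureTheory Filter
open scoped ContDiff ComplexOrder Topology

variable {m : ℕ}

/-- multiplication with the half weight -/
noncomputable def up (ψ : (Fin m → ℂ) → ℝ) (f : (Fin m → ℂ) → ℂ) (z : Fin m → ℂ) : ℂ :=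
  f z * ((Real.exp (-ψ z / 2) : ℝ) : ℂ)

/-- division by the half weight -/
noncomputable def dn (ψ : (Fin m → ℂ) → ℝ) (f : (Fin m → ℂ) → ℂ) (z : Fin m → ℂ) : ℂ :=
  f z * ((Real.exp (ψ z / 2) : ℝ) : ℂ)

theorem exp_half_mul (x : ℝ) : ((Real.exp (x / 2) : ℝ) : ℂ) * ((Real.exp (-x / 2) : ℝ) : ℂ) = 1 := by
  rw [← Complex.ofReal_mul, ← Real.exp_add]
  have : x / 2 + -x / 2 = 0 := by ring
  rw [this, Real.exp_zero, Complex.ofReal_one]

theorem exp_half_sq (x : ℝ) : ((Real.exp (-x / 2) : ℝ) : ℂ) * ((Real.exp (-x / 2) : ℝ) : ℂ) =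
    ((Real.exp (-x) : ℝ) : ℂ) := by
  rw [← Complex.ofReal_mul, ← Real.exp_add]
  have : -x / 2 + -x / 2 = -x := by ring
  rw [this]

theorem exp_half_sub (x : ℝ) : ((Real.exp (x / 2) : ℝ) : ℂ) * ((Real.exp (-x) : ℝ) : ℂ) =
    ((Real.exp (-x / 2) : ℝ) : ℂ) := by
  rw [← Complex.ofReal_mul, ← Real.exp_add]
  have : x / 2 + -x = -x / 2 := by ring
  rw [this]

theorem norm_up_sq (ψ : (Fin m → ℂ) → ℝ) (f : (Fin m → ℂ) → ℂ) (z : Fin m → ℂ) :
    ‖up ψ f z‖ ^ 2 = ‖f z‖ ^ 2 * Real.exp (-ψ z) := by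
  rw [up, norm_mul, mul_pow, Complex.norm_real, Real.norm_eq_abs, sq_abs, sq (Real.exp _),
    ← Real.exp_add]
  congr 2
  ring

theorem norm_dn_sq (ψ : (Fin m → ℂ) → ℝ) (f : (Fin m → ℂ) → ℂ) (z : Fin m → ℂ) :
    ‖dn ψ f z‖ ^ 2 * Real.exp (-ψ z) = ‖f z‖ ^ 2 := by
  rw [dn, norm_mul, mul_pow, Complex.norm_real, Real.norm_eq_abs, sq_abs, sq (Real.exp _),
    ← Real.exp_add, mul_assoc, ← Real.exp_add]
  have : ψ z / 2 + ψ z / 2 + -ψ z = 0 := by ring
  rw [this, Real.exp_zero, mul_one]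

theorem cont_up {ψ : (Fin m → ℂ) → ℝ} (hψ : Continuous ψ) :
    Continuous fun z => ((Real.exp (-ψ z / 2) : ℝ) : ℂ) :=
  Complex.continuous_ofReal.comp (Real.continuous_exp.comp (hψ.neg.div_const 2))

theorem cont_dn {ψ : (Fin m → ℂ) → ℝ} (hψ : Continuous ψ) :
    Continuous fun z => ((Real.exp (ψ z / 2) : ℝ) : ℂ) :=
  Complex.continuous_ofReal.comp (Real.continuous_exp.comp (hψ.div_const 2))

theorem cont_ex {ψ : (Fin m → ℂ) → ℝ} (hψ : Continuous ψ) :
    Continuous fun z => Real.exp (-ψ z) := Real.continuous_exp.comp hψ.neg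

theorem memLp_up {ψ : (Fin m → ℂ) → ℝ} (hψ : Continuous ψ) {f : (Fin m → ℂ) → ℂ}
    (hf : L2 Set.univ ψ f) : MemLp (up ψ f) 2 volume := by
  obtain ⟨h1, h2⟩ := hf
  rw [Measure.restrict_univ] at h1
  rw [integrableOn_univ] at h2
  refine (memLp_two_iff_integrable_sq_norm
    (h1.mul (cont_up hψ).aestronglyMeasurable : AEStronglyMeasurable (up ψ f) volume)).2 ?_
  exact h2.congr (Eventually.of_forall fun z => (norm_up_sq ψ f z).symm)

theorem L2_of_memLp_up {ψ : (Fin m → ℂ) → ℝ} (hψ : Continuous ψ) {f : (Fin m → ℂ) → ℂ}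
    (hf : MemLp (up ψ f) 2 volume) : L2 Set.univ ψ f := by
  have h0 : f = fun z => up ψ f z * ((Real.exp (ψ z / 2) : ℝ) : ℂ) := by
    funext z
    rw [up, mul_assoc, mul_comm ((Real.exp (-ψ z / 2) : ℝ) : ℂ), exp_half_mul, mul_one]
  refine ⟨?_, ?_⟩
  · rw [Measure.restrict_univ, h0]
    exact hf.1.mul (cont_dn hψ).aestronglyMeasurable
  · rw [integrableOn_univ]
    exact ((memLp_two_iff_integrable_sq_norm hf.1).1 hf).congr
      (Eventually.of_forall fun z => norm_up_sq ψ f z)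

theorem L2_dn {ψ : (Fin m → ℂ) → ℝ} (hψ : Continuous ψ) {f : (Fin m → ℂ) → ℂ}
    (hf : MemLp f 2 volume) : L2 Set.univ ψ (dn ψ f) := by
  refine L2_of_memLp_up hψ ?_
  have : up ψ (dn ψ f) = f := by
    funext z
    rw [up, dn, mul_assoc, exp_half_mul, mul_one]
  rw [this]
  exact hf

/-- the class in `L²` (zero if it does not make sense) -/
noncomputable def tl (g : (Fin m → ℂ) → ℂ) : Lp ℂ 2 (volume : Measure (Fin m → ℂ)) := by
  classical
  exact if h : MemLp g 2 volume then h.toLp g else 0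

theorem tl_coe {g : (Fin m → ℂ) → ℂ} (h : MemLp g 2 volume) : tl g =ᵐ[volume] g := by
  classical
  rw [tl, dif_pos h]
  exact h.coeFn_toLp

theorem inner_eq (F K : Lp ℂ 2 (volume : Measure (Fin m → ℂ))) :
    inner ℂ F K = ∫ z, K z * star (F z) := by
  rw [L2.inner_def]
  rfl

theorem inner_tl {g : (Fin m → ℂ) → ℂ} (h : MemLp g 2 volume)
    (F : Lp ℂ 2 (volume : Measure (Fin m → ℂ))) :
    inner ℂ (tl g) F = ∫ z, F z * star (g z) := by
  rw [inner_eq]
  refine integral_congr_ae ?_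
  filter_upwards [tl_coe h] with z hz
  rw [hz]

theorem inner_tl_tl {g f : (Fin m → ℂ) → ℂ} (h : MemLp g 2 volume) (h' : MemLp f 2 volume) :
    inner ℂ (tl g) (tl f) = ∫ z, f z * star (g z) := by
  rw [inner_tl h]
  refine integral_congr_ae ?_
  filter_upwards [tl_coe h'] with z hz
  rw [hz]

theorem norm_sq_eq (F : Lp ℂ 2 (volume : Measure (Fin m → ℂ))) :
    ‖F‖ ^ 2 = ∫ z, ‖F z‖ ^ 2 := by
  have h1 : inner ℂ F F = ((‖F‖ ^ 2 : ℝ) : ℂ) := by
    rw [inner_self_eq_norm_sq_to_K]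
    push_cast
    rfl
  have h2 : inner ℂ F F = ((∫ z, ‖F z‖ ^ 2 : ℝ) : ℂ) := by
    rw [inner_eq, ← integral_complex_ofReal]
    refine integral_congr_ae (Eventually.of_forall fun z => ?_)
    show F z * (starRingEnd ℂ) (F z) = _
    rw [Complex.mul_conj, Complex.normSq_eq_norm_sq]
  exact_mod_cast h1.symm.trans h2

/-! ### test functions -/

theorem cs_db (j : Fin m) {φ : (Fin m → ℂ) → ℂ} (hφ : HasCompactSupport φ) :
    HasCompactSupport (db j φ) := by
  have h1 : HasCompactSupport (fderiv ℝ φ) := hφ.fderiv ℝ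
  exact h1.comp_left (g := fun L : (Fin m → ℂ) →L[ℝ] ℂ =>
    (L (Pi.single j 1) + Complex.I * L (Pi.single j Complex.I)) / 2) (by simp)

theorem smooth_db (hCAL : StCAL) (j : Fin m) {φ : (Fin m → ℂ) → ℂ} (hφ : ContDiff ℝ ∞ φ) :
    ContDiff ℝ ∞ (db j φ) := by
  have h := ((hCAL m j j φ φ 0).2.2.2.2 Set.univ isOpen_univ hφ.contDiffOn).2
  exact contDiffOn_univ.1 h

theorem memLp_cs {g : (Fin m → ℂ) → ℂ} (h : Continuous g) (h' : HasCompactSupport g) :
    MemLp g 2 volume := h.memLp_of_hasCompactSupport h'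

theorem memLp_up_cs {ψ : (Fin m → ℂ) → ℝ} (hψ : Continuous ψ) {g : (Fin m → ℂ) → ℂ}
    (h : Continuous g) (h' : HasCompactSupport g) : MemLp (up ψ g) 2 volume :=
  memLp_cs (h.mul (cont_up hψ)) h'.mul_right

theorem memLp_dn_cs {ψ : (Fin m → ℂ) → ℝ} (hψ : Continuous ψ) {g : (Fin m → ℂ) → ℂ}
    (h : Continuous g) (h' : HasCompactSupport g) : MemLp (dn ψ g) 2 volume :=
  memLp_cs (h.mul (cont_dn hψ)) h'.mul_right

/-- `inn` as an inner product in `L²` -/
theorem inn_dn {ψ : (Fin m → ℂ) → ℝ} {g : (Fin m → ℂ) → ℂ} (h : MemLp (up ψ g) 2 volume)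
    (F : Lp ℂ 2 (volume : Measure (Fin m → ℂ))) :
    inn Set.univ ψ (dn ψ F) g = inner ℂ (tl (up ψ g)) F := by
  rw [inner_tl h, inn, Measure.restrict_univ]
  refine integral_congr_ae (Eventually.of_forall fun z => ?_)
  show F z * ((Real.exp (ψ z / 2) : ℝ) : ℂ) * star (g z) * ((Real.exp (-ψ z) : ℝ) : ℂ) =
    F z * (starRingEnd ℂ) (g z * ((Real.exp (-ψ z / 2) : ℝ) : ℂ))
  rw [map_mul, Complex.conj_ofReal, ← exp_half_sub]
  show _ = F z * (star (g z) * _)
  ring

/-- integration against a function -/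
theorem int_dn {ψ : (Fin m → ℂ) → ℝ} {g : (Fin m → ℂ) → ℂ}
    (h : MemLp (dn ψ fun z => star (g z)) 2 volume)
    (F : Lp ℂ 2 (volume : Measure (Fin m → ℂ))) :
    ∫ z, dn ψ F z * g z = inner ℂ (tl (dn ψ fun z => star (g z))) F := by
  rw [inner_tl h]
  refine integral_congr_ae (Eventually.of_forall fun z => ?_)
  show F z * ((Real.exp (ψ z / 2) : ℝ) : ℂ) * g z =
    F z * (starRingEnd ℂ) (star (g z) * ((Real.exp (ψ z / 2) : ℝ) : ℂ))
  rw [map_mul, Complex.conj_ofReal]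
  have : (starRingEnd ℂ) (star (g z)) = g z := star_star (g z)
  rw [this]
  ring

/-! ### cutoffs -/

theorem norm_single_one (j : Fin m) (c : ℂ) (hc : ‖c‖ = 1) :
    ‖(Pi.single j c : Fin m → ℂ)‖ ≤ 1 := by
  refine (pi_norm_le_iff_of_nonneg zero_le_one).2 fun i => ?_
  by_cases h : i = j
  · subst h
    rw [Pi.single_eq_same, hc]
  · rw [Pi.single_eq_of_ne h, norm_zero]
    exact zero_le_one

theorem norm_db_le (j : Fin m) (φ : (Fin m → ℂ) → ℂ) (z : Fin m → ℂ) :
    ‖db j φ z‖ ≤ ‖fderiv ℝ φ z‖ := by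
  have h1 : ‖fderiv ℝ φ z (Pi.single j 1)‖ ≤ ‖fderiv ℝ φ z‖ :=
    ((fderiv ℝ φ z).le_opNorm _).trans
      (mul_le_of_le_one_right (norm_nonneg _) (norm_single_one j 1 (by simp)))
  have h2 : ‖fderiv ℝ φ z (Pi.single j Complex.I)‖ ≤ ‖fderiv ℝ φ z‖ :=
    ((fderiv ℝ φ z).le_opNorm _).trans
      (mul_le_of_le_one_right (norm_nonneg _) (norm_single_one j Complex.I (by simp)))
  rw [db, norm_div, Complex.norm_two]
  have h3 := norm_add_le (fderiv ℝ φ z (Pi.single j 1))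
    (Complex.I * fderiv ℝ φ z (Pi.single j Complex.I))
  rw [norm_mul, Complex.norm_I, one_mul] at h3
  linarith

theorem cutoff (m : ℕ) : ∃ (χ : ℕ → (Fin m → ℂ) → ℂ) (C : ℝ), (∀ n, Tst Set.univ (χ n)) ∧
    (∀ n z, ‖χ n z‖ ≤ 1) ∧ (∀ z, Tendsto (fun n => χ n z) atTop (𝓝 1)) ∧
    ∀ n j z, ‖db j (χ n) z‖ ≤ C * (1 / ((n : ℝ) + 1)) := by
  let f : ContDiffBump (0 : Fin m → ℂ) := ⟨1, 2, one_pos, one_lt_two⟩
  have hfs : ContDiff ℝ ∞ (f : (Fin m → ℂ) → ℝ) := f.contDiff
  have hfc : HasCompactSupport (f : (Fin m → ℂ) → ℝ) := f.hasCompactSupport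
  let g : (Fin m → ℂ) → ℂ := fun z => ((f z : ℝ) : ℂ)
  have hgs : ContDiff ℝ ∞ g := Complex.ofRealCLM.contDiff.comp hfs
  have hgc : HasCompactSupport g := hfc.comp_left (g := fun x : ℝ => (x : ℂ)) Complex.ofReal_zero
  have hDc : Continuous (fderiv ℝ g) := hgs.continuous_fderiv (by simp)
  obtain ⟨C, hC⟩ := hDc.bounded_above_of_compact_support (hgc.fderiv ℝ)
  let r : ℕ → ℝ := fun n => 1 / ((n : ℝ) + 1)
  have hr : ∀ n, 0 < r n := fun n => by positivity
  refine ⟨fun n z => g (r n • z), C, ?_, ?_, ?_, ?_⟩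
  · intro n
    refine ⟨hgs.comp (contDiff_const_smul (r n)), ?_, Set.subset_univ _⟩
    exact hgc.comp_smul (hr n).ne'
  · intro n z
    show ‖((f (r n • z) : ℝ) : ℂ)‖ ≤ 1
    rw [Complex.norm_real, Real.norm_eq_abs, abs_of_nonneg f.nonneg]
    exact f.le_one
  · intro z
    have h1 : Tendsto (fun n => r n • z) atTop (𝓝 ((0 : ℝ) • z)) :=
      (tendsto_one_div_add_atTop_nhds_zero_nat).smul_const z
    rw [zero_smul] at h1
    have h2 : g 0 = 1 := by
      show ((f 0 : ℝ) : ℂ) = 1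
      rw [f.one_of_mem_closedBall (Metric.mem_closedBall_self (by norm_num)), Complex.ofReal_one]
    rw [← h2]
    exact (hgs.continuous.tendsto 0).comp h1
  · intro n j z
    refine (norm_db_le j _ z).trans ?_
    have h1 : fderiv ℝ (fun z => g (r n • z)) z = (r n) • fderiv ℝ g (r n • z) := by
      have h2 : HasFDerivAt (fun z : Fin m → ℂ => r n • z)
          ((r n) • ContinuousLinearMap.id ℝ (Fin m → ℂ)) z :=
        (hasFDerivAt_id z).const_smul (r n)
      have h3 := ((hgs.differentiable (by simp)) (r n • z)).hasFDerivAt.comp z h2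
      have h4 : (fderiv ℝ g (r n • z)).comp ((r n) • ContinuousLinearMap.id ℝ (Fin m → ℂ)) =
          (r n) • fderiv ℝ g (r n • z) := by
        ext v
        simp
      rw [h4] at h3
      exact h3.fderiv
    rw [h1, norm_smul, Real.norm_eq_abs, abs_of_pos (hr n), mul_comm]
    exact mul_le_mul_of_nonneg_right (hC _) (hr n).le

/-- the product of two `L²` functions is integrable -/
theorem int_mul {ψ : (Fin m → ℂ) → ℝ} (hψ : Continuous ψ) {f g : (Fin m → ℂ) → ℂ}
    (hf : L2 Set.univ ψ f) (hg : L2 Set.univ ψ g) :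
    Integrable fun z => f z * star (g z) * ((Real.exp (-ψ z) : ℝ) : ℂ) := by
  have h1 := memLp_up hψ hf
  have h2 := memLp_up hψ hg
  have h3 : MemLp (fun z => star (up ψ g z)) 2 volume := h2.star
  have h4 := h1.integrable_mul h3
  refine h4.congr (Eventually.of_forall fun z => ?_)
  show f z * ((Real.exp (-ψ z / 2) : ℝ) : ℂ) *
    (starRingEnd ℂ) (g z * ((Real.exp (-ψ z / 2) : ℝ) : ℂ)) = _
  rw [map_mul, Complex.conj_ofReal]
  show _ * (star (g z) * _) = f z * star (g z) * ((Real.exp (-ψ z) : ℝ) : ℂ)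
  rw [← exp_half_sq]
  ring

/-- step (3): orthogonality to entire functions -/
theorem orth (hCAL : StCAL) {ψ : (Fin m → ℂ) → ℝ} (hψ : Continuous ψ)
    {v : Fin m → (Fin m → ℂ) → ℂ} {a : (Fin m → ℂ) → ℂ} (hv : ∀ j, L2 Set.univ ψ (v j))
    (ha : L2 Set.univ ψ a) (hWT : WT Set.univ ψ v a) {h : (Fin m → ℂ) → ℂ}
    (hh : Differentiable ℂ h) (hh2 : L2 Set.univ ψ h) : inn Set.univ ψ a h = 0 := by
  obtain ⟨χ, C, hχ, hχ1, hχt, hχd⟩ := cutoff m
  have hhs : ContDiff ℝ ∞ h := (Pool.Agent.Helper88.JT.contDiff hh).restrict_scalars ℝ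
  have htst : ∀ n, Tst Set.univ (fun z => χ n z * h z) := fun n =>
    ⟨(hχ n).1.mul hhs, (hχ n).2.1.mul_right, Set.subset_univ _⟩
  have hdb : ∀ n j z, db j (fun z => χ n z * h z) z = db j (χ n) z * h z := by
    intro n j z
    have h1 := ((hCAL m j j (χ n) h z).1 ((hχ n).1.differentiable (by simp) z)
      (hhs.differentiable (by simp) z)).2.2.2.1
    have h2 := ((hCAL m j j h h z).2.2.1 (hh z)).1
    rw [h1, h2, mul_zero, add_zero]
  -- left side
  have hL : Tendsto (fun n => inn Set.univ ψ a (fun z => χ n z * h z)) atTop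
      (𝓝 (inn Set.univ ψ a h)) := by
    simp only [inn, Measure.restrict_univ]
    have hi := int_mul hψ ha hh2
    refine tendsto_integral_of_dominated_convergence
      (fun z => ‖a z * star (h z) * ((Real.exp (-ψ z) : ℝ) : ℂ)‖) ?_ hi.norm ?_ ?_
    · intro n
      have : (fun z => a z * star (χ n z * h z) * ((Real.exp (-ψ z) : ℝ) : ℂ)) =
          fun z => star (χ n z) * (a z * star (h z) * ((Real.exp (-ψ z) : ℝ) : ℂ)) := by
        funext z
        rw [star_mul]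
        ring
      rw [this]
      exact ((hχ n).1.continuous.star.aestronglyMeasurable).mul hi.1
    · intro n
      refine Eventually.of_forall fun z => ?_
      have : a z * star (χ n z * h z) * ((Real.exp (-ψ z) : ℝ) : ℂ) =
          star (χ n z) * (a z * star (h z) * ((Real.exp (-ψ z) : ℝ) : ℂ)) := by
        rw [star_mul]
        ring
      rw [this, norm_mul, norm_star]
      exact mul_le_of_le_one_left (norm_nonneg _) (hχ1 n z)
    · refine Eventually.of_forall fun z => ?_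
      have h1 : Tendsto (fun n => star (χ n z * h z)) atTop (𝓝 (star (1 * h z))) :=
        (continuous_star.tendsto _).comp ((hχt z).mul_const (h z))
      rw [one_mul] at h1
      exact (h1.const_mul (a z)).mul_const _
  -- right side
  have hR : Tendsto (fun n => inn Set.univ ψ a (fun z => χ n z * h z)) atTop (𝓝 0) := by
    have h1 : ∀ n, inn Set.univ ψ a (fun z => χ n z * h z) =
        ∑ j, ∫ z, v j z * star (db j (χ n) z * h z) * ((Real.exp (-ψ z) : ℝ) : ℂ) := by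
      intro n
      rw [hWT _ (htst n)]
      refine Finset.sum_congr rfl fun j _ => ?_
      rw [inn, Measure.restrict_univ]
      refine integral_congr_ae (Eventually.of_forall fun z => ?_)
      show v j z * star (db j (fun z => χ n z * h z) z) * _ = _
      rw [hdb]
    have h2 : (fun n => inn Set.univ ψ a (fun z => χ n z * h z)) = fun n =>
        ∑ j, ∫ z, v j z * star (db j (χ n) z * h z) * ((Real.exp (-ψ z) : ℝ) : ℂ) := funext h1
    rw [h2, ← Finset.sum_const_zero (s := (Finset.univ : Finset (Fin m)))]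
    refine tendsto_finsetSum _ fun j _ => ?_
    have hi := int_mul hψ (hv j) hh2
    rw [tendsto_zero_iff_norm_tendsto_zero]
    refine squeeze_zero (fun n => norm_nonneg _) (fun n => ?_)
      (g := fun n : ℕ => (C * (1 / ((n : ℝ) + 1))) *
        ∫ z, ‖v j z * star (h z) * ((Real.exp (-ψ z) : ℝ) : ℂ)‖) ?_
    · rw [← integral_const_mul]
      refine norm_integral_le_of_norm_le (hi.norm.const_mul _) (Eventually.of_forall fun z => ?_)
      have : v j z * star (db j (χ n) z * h z) * ((Real.exp (-ψ z) : ℝ) : ℂ) =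
          star (db j (χ n) z) * (v j z * star (h z) * ((Real.exp (-ψ z) : ℝ) : ℂ)) := by
        rw [star_mul]
        ring
      rw [this, norm_mul, norm_star]
      exact mul_le_mul_of_nonneg_right (hχd n j z) (norm_nonneg _)
    · have h3 : Tendsto (fun n : ℕ => 1 / ((n : ℝ) + 1)) atTop (𝓝 0) :=
        tendsto_one_div_add_atTop_nhds_zero_nat
      have h4 := (h3.const_mul C).mul_const
        (∫ z, ‖v j z * star (h z) * ((Real.exp (-ψ z) : ℝ) : ℂ)‖)
      rw [mul_zero, zero_mul] at h4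
      exact h4
  exact tendsto_nhds_unique hL hR

/-- the functional `F ↦ ∫ F e^(ψ/2) db j φ` -/
noncomputable def kf (ψ : (Fin m → ℂ) → ℝ) (φ : (Fin m → ℂ) → ℂ) (j : Fin m) :
    Lp ℂ 2 (volume : Measure (Fin m → ℂ)) := tl (dn ψ fun z => star (db j φ z))

/-- the closed forms -/
noncomputable def KK (ψ : (Fin m → ℂ) → ℝ) :
    Submodule ℂ (PiLp 2 fun _ : Fin m => Lp ℂ 2 (volume : Measure (Fin m → ℂ))) where
  carrier := {V | ∀ φ, Tst Set.univ φ → ∀ j k,
    inner ℂ (kf ψ φ j) (V k) = inner ℂ (kf ψ φ k) (V j)}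
  add_mem' := by
    intro a b ha hb φ hφ j k
    simp only [PiLp.add_apply, inner_add_right, ha φ hφ j k, hb φ hφ j k]
  zero_mem' := by
    intro φ hφ j k
    simp only [PiLp.zero_apply, inner_zero_right]
  smul_mem' := by
    intro c a ha φ hφ j k
    simp only [PiLp.smul_apply, inner_smul_right, ha φ hφ j k]

theorem KK_closed (ψ : (Fin m → ℂ) → ℝ) : IsClosed (KK ψ : Set (PiLp 2 fun _ : Fin m =>
    Lp ℂ 2 (volume : Measure (Fin m → ℂ)))) := by
  have h1 : (KK ψ : Set (PiLp 2 fun _ : Fin m => Lp ℂ 2 (volume : Measure (Fin m → ℂ)))) =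
      ⋂ φ, ⋂ (_ : Tst Set.univ φ), ⋂ j, ⋂ k, {V |
        inner ℂ (kf ψ φ j) (V k) = inner ℂ (kf ψ φ k) (V j)} := by
    ext V
    simp only [Set.mem_iInter]
    exact Iff.rfl
  rw [h1]
  refine isClosed_iInter fun φ => isClosed_iInter fun _ => isClosed_iInter fun j =>
    isClosed_iInter fun k => ?_
  exact isClosed_eq (Continuous.inner continuous_const (PiLp.continuous_apply 2 _ k))
    (Continuous.inner continuous_const (PiLp.continuous_apply 2 _ j))

/-- `D_φ` -/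
noncomputable def DD (ψ : (Fin m → ℂ) → ℝ) (φ : (Fin m → ℂ) → ℂ) :
    PiLp 2 fun _ : Fin m => Lp ℂ 2 (volume : Measure (Fin m → ℂ)) :=
  WithLp.toLp 2 fun j => tl (up ψ (db j φ))

theorem DD_apply (ψ : (Fin m → ℂ) → ℝ) (φ : (Fin m → ℂ) → ℂ) (j : Fin m) :
    DD ψ φ j = tl (up ψ (db j φ)) := rfl

theorem ibp_db (hIBP : StIBP) (j : Fin m) {f g : (Fin m → ℂ) → ℂ} (hf : ContDiff ℝ ∞ f)
    (hg : Tst Set.univ g) : (∫ z, db j f z * g z) = - ∫ z, f z * db j g z :=
  (hIBP m j f g (hf.of_le (by norm_cast)) (hg.1.of_le (by norm_cast))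
    hg.2.1).2

/-- test functions are stable under `db` -/
theorem tst_db (hCAL : StCAL) (j : Fin m) {φ : (Fin m → ℂ) → ℂ} (hφ : Tst Set.univ φ) :
    Tst Set.univ (db j φ) := ⟨smooth_db hCAL j hφ.1, cs_db j hφ.2.1, Set.subset_univ _⟩

theorem memLp_kf (hCAL : StCAL) {ψ : (Fin m → ℂ) → ℝ} (hψ : Continuous ψ) {φ : (Fin m → ℂ) → ℂ}
    (hφ : Tst Set.univ φ) (j : Fin m) : MemLp (dn ψ fun z => star (db j φ z)) 2 volume :=
  memLp_dn_cs hψ (tst_db hCAL j hφ).1.continuous.star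
    ((cs_db j hφ.2.1).comp_left (g := fun x : ℂ => star x) (star_zero _))

theorem memLp_DD (hCAL : StCAL) {ψ : (Fin m → ℂ) → ℝ} (hψ : Continuous ψ) {φ : (Fin m → ℂ) → ℂ}
    (hφ : Tst Set.univ φ) (j : Fin m) : MemLp (up ψ (db j φ)) 2 volume :=
  memLp_up_cs hψ (tst_db hCAL j hφ).1.continuous (cs_db j hφ.2.1)

theorem DD_mem (hCAL : StCAL) (hIBP : StIBP) {ψ : (Fin m → ℂ) → ℝ} (hψ : Continuous ψ)
    {φ : (Fin m → ℂ) → ℂ} (hφ : Tst Set.univ φ) : DD ψ φ ∈ KK ψ := by
  intro φ' hφ' j k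
  have key : ∀ j k, inner ℂ (kf ψ φ' j) (DD ψ φ k) = - ∫ z, φ z * db k (db j φ') z := by
    intro j k
    rw [DD_apply, kf, inner_tl_tl (memLp_kf hCAL hψ hφ' j) (memLp_DD hCAL hψ hφ k),
      ← ibp_db hIBP k hφ.1 (tst_db hCAL j hφ')]
    refine integral_congr_ae (Eventually.of_forall fun z => ?_)
    show db k φ z * ((Real.exp (-ψ z / 2) : ℝ) : ℂ) *
      (starRingEnd ℂ) (star (db j φ' z) * ((Real.exp (ψ z / 2) : ℝ) : ℂ)) = db k φ z * db j φ' z
    rw [map_mul, Complex.conj_ofReal]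
    have h1 : (starRingEnd ℂ) (star (db j φ' z)) = db j φ' z := star_star _
    rw [h1]
    calc _ = db k φ z * db j φ' z * (((Real.exp (ψ z / 2) : ℝ) : ℂ) *
        ((Real.exp (-ψ z / 2) : ℝ) : ℂ)) := by ring
      _ = _ := by rw [exp_half_mul, mul_one]
  rw [key, key]
  congr 1
  refine integral_congr_ae (Eventually.of_forall fun z => ?_)
  show φ z * db k (db j φ') z = φ z * db j (db k φ') z
  have h1 := ((hCAL m j k φ' φ' z).2.2.2.1 (hφ'.1.contDiffAt.of_le
    (by norm_cast))).2.2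
  rw [h1]

theorem L2_congr {ψ : (Fin m → ℂ) → ℝ} {f g : (Fin m → ℂ) → ℂ} (h : f =ᵐ[volume] g)
    (hf : L2 Set.univ ψ f) : L2 Set.univ ψ g := by
  obtain ⟨h1, h2⟩ := hf
  rw [Measure.restrict_univ] at h1
  rw [integrableOn_univ] at h2
  refine ⟨?_, ?_⟩
  · rw [Measure.restrict_univ]
    exact h1.congr h
  · rw [integrableOn_univ]
    refine h2.congr ?_
    filter_upwards [h] with z hz
    rw [hz]

theorem inn_congr {ψ : (Fin m → ℂ) → ℝ} {f f' g : (Fin m → ℂ) → ℂ} (h : f =ᵐ[volume] f') :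
    inn Set.univ ψ f g = inn Set.univ ψ f' g := by
  rw [inn, inn, Measure.restrict_univ]
  refine integral_congr_ae ?_
  filter_upwards [h] with z hz
  rw [hz]

theorem nrm_congr {ψ : (Fin m → ℂ) → ℝ} {f f' : (Fin m → ℂ) → ℂ} (h : f =ᵐ[volume] f') :
    nrm Set.univ ψ f = nrm Set.univ ψ f' := by
  rw [nrm, nrm, Measure.restrict_univ]
  refine integral_congr_ae ?_
  filter_upwards [h] with z hz
  rw [hz]

theorem nrm_nonneg (ψ : (Fin m → ℂ) → ℝ) (f : (Fin m → ℂ) → ℂ) : 0 ≤ nrm Set.univ ψ f :=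
  integral_nonneg fun z => by positivity

theorem nrm_dn (ψ : (Fin m → ℂ) → ℝ) (F : Lp ℂ 2 (volume : Measure (Fin m → ℂ))) :
    nrm Set.univ ψ (dn ψ F) = ‖F‖ ^ 2 := by
  rw [nrm, Measure.restrict_univ, norm_sq_eq]
  exact integral_congr_ae (Eventually.of_forall fun z => norm_dn_sq ψ F z)

theorem L2loc_of_L2 {ψ : (Fin m → ℂ) → ℝ} (hψ : Continuous ψ) {f : (Fin m → ℂ) → ℂ}
    (hf : L2 Set.univ ψ f) : L2loc Set.univ f := by
  refine ⟨hf.1, fun K _ hK => ?_⟩
  have h1 : IntegrableOn (fun z => ‖f z‖ ^ 2 * Real.exp (-ψ z)) K :=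
    hf.2.mono_set (Set.subset_univ _)
  have h2 : ContinuousOn (fun z => Real.exp (ψ z)) K :=
    (Real.continuous_exp.comp hψ).continuousOn
  have h3 := h1.mul_continuousOn h2 hK
  refine h3.congr_fun_ae ?_
  refine Eventually.of_forall fun z => ?_
  show ‖f z‖ ^ 2 * Real.exp (-ψ z) * Real.exp (ψ z) = ‖f z‖ ^ 2
  rw [mul_assoc, ← Real.exp_add, neg_add_cancel, Real.exp_zero, mul_one]

/-- from an element of `KK` and the weak equation to the hypotheses of `StBSI` -/
theorem cf_of_mem (hCAL : StCAL) {ψ : (Fin m → ℂ) → ℝ} (hψ : Continuous ψ)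
    {V : PiLp 2 fun _ : Fin m => Lp ℂ 2 (volume : Measure (Fin m → ℂ))} (hV : V ∈ KK ψ) :
    CF (fun j => dn ψ (V j)) := by
  intro φ hφ j k
  rw [int_dn (memLp_kf hCAL hψ hφ j), int_dn (memLp_kf hCAL hψ hφ k)]
  exact hV φ hφ j k

theorem wt_of_inner (hCAL : StCAL) {ψ : (Fin m → ℂ) → ℝ} (hψ : Continuous ψ)
    {V : PiLp 2 fun _ : Fin m => Lp ℂ 2 (volume : Measure (Fin m → ℂ))}
    {A : Lp ℂ 2 (volume : Measure (Fin m → ℂ))}
    (h : ∀ φ : {φ : (Fin m → ℂ) → ℂ // Tst Set.univ φ},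
      inner ℂ (tl (up ψ φ.1)) A = inner ℂ (DD ψ φ.1) V) :
    WT Set.univ ψ (fun j => dn ψ (V j)) (dn ψ A) := by
  intro φ hφ
  rw [inn_dn (memLp_up_cs hψ hφ.1.continuous hφ.2.1), h ⟨φ, hφ⟩, PiLp.inner_apply]
  refine Finset.sum_congr rfl fun j _ => ?_
  rw [inn_dn (memLp_DD hCAL hψ hφ j), DD_apply]

theorem hPRJ (hBSI : StBSI) (hWEY : StWEY) (hCAL : StCAL) (hIBP : StIBP) :
    Pool.Agent.Helper52.KP.StPRJ := by
  classical
  intro m ψ hψs δ hδ hPsd hlow G hG
  have hψ : Continuous ψ := hψs.continuous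
  have hmem : ∀ F : Lp ℂ 2 (volume : Measure (Fin m → ℂ)), L2 Set.univ ψ (dn ψ F) :=
    fun F => L2_dn hψ (Lp.memLp F)
  -- the a priori estimate
  have hb : ∀ V ∈ KK ψ, ∀ A : Lp ℂ 2 (volume : Measure (Fin m → ℂ)),
      (∀ φ : {φ : (Fin m → ℂ) → ℂ // Tst Set.univ φ},
        inner ℂ (tl (up ψ φ.1)) A = inner ℂ (DD ψ φ.1) V) → δ * ‖V‖ ^ 2 ≤ ‖A‖ ^ 2 := by
    intro V hV A hA
    obtain ⟨γ, hγ, hint, hle⟩ := hBSI m ψ hψs hPsd (fun j => dn ψ (V j)) (dn ψ A)
      (fun j => hmem _) (hmem _) (wt_of_inner hCAL hψ hA) (cf_of_mem hCAL hψ hV)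
    rw [nrm_dn] at hle
    have h0 : 0 ≤ ∑ j, ∑ k, nrm Set.univ ψ (γ k j) :=
      Finset.sum_nonneg fun j _ => Finset.sum_nonneg fun k _ => nrm_nonneg _ _
    have hIj : ∀ j, Integrable fun z => ‖V j z‖ ^ 2 := fun j =>
      (memLp_two_iff_integrable_sq_norm (Lp.memLp (V j)).1).1 (Lp.memLp (V j))
    have h1 : δ * ‖V‖ ^ 2 = ∫ z, δ * ∑ j, ‖V j z‖ ^ 2 := by
      rw [integral_const_mul, integral_finsetSum _ fun j _ => hIj j, PiLp.norm_sq_eq_of_L2]
      congr 1
      exact Finset.sum_congr rfl fun j _ => norm_sq_eq (V j)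
    have h2 : δ * ‖V‖ ^ 2 ≤
        ∫ z, hf (hes ψ z) (fun j => dn ψ (V j) z) * Real.exp (-ψ z) := by
      rw [h1]
      refine integral_mono ((integrable_finsetSum _ fun j _ => hIj j).const_mul δ) hint fun z => ?_
      have h3 := mul_le_mul_of_nonneg_right (hlow z (fun j => dn ψ (V j) z))
        (Real.exp_pos (-ψ z)).le
      refine le_trans (le_of_eq ?_) h3
      show δ * ∑ j, ‖V j z‖ ^ 2 = δ * (∑ j, ‖dn ψ (V j) z‖ ^ 2) * Real.exp (-ψ z)
      rw [mul_assoc, Finset.sum_mul]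
      congr 1
      exact Finset.sum_congr rfl fun j _ => (norm_dn_sq ψ (V j) z).symm
    linarith
  -- the abstract lemma
  obtain ⟨V, hV, A, hA, hort⟩ := absPRJ (KK ψ) (KK_closed ψ)
    (fun φ : {φ : (Fin m → ℂ) → ℂ // Tst Set.univ φ} => DD ψ φ.1)
    (fun φ => tl (up ψ φ.1)) (fun φ => DD_mem hCAL hIBP hψ φ.2) δ hδ hb (tl (up ψ G))
  -- `h1 = G - a`
  let h1 : (Fin m → ℂ) → ℂ := fun z => G z - dn ψ A z
  have hh1L : L2 Set.univ ψ h1 := by
    refine L2_of_memLp_up hψ ?_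
    have h2 : up ψ h1 = fun z => up ψ G z - up ψ (dn ψ A) z := by
      funext z
      simp only [up, h1]
      ring
    rw [h2]
    exact (memLp_up hψ hG).sub (memLp_up hψ (hmem A))
  have hWD : ∀ k, WD Set.univ k h1 (fun _ => 0) := by
    intro k φ hφ
    simp only [Measure.restrict_univ, zero_mul, integral_zero, neg_zero]
    -- the test form
    have hc1 : Continuous fun z => star (φ z) := hφ.1.continuous.star
    have hs1 : HasCompactSupport fun z => star (φ z) :=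
      hφ.2.1.comp_left (g := fun x : ℂ => star x) (star_zero _)
    have hN := memLp_dn_cs hψ hc1 hs1
    have hc2 : Continuous fun z => -star (db k φ z) := (tst_db hCAL k hφ).1.continuous.star.neg
    have hs2 : HasCompactSupport fun z => -star (db k φ z) :=
      (cs_db k hφ.2.1).comp_left (g := fun x : ℂ => -star x) (by simp)
    have ht := memLp_dn_cs hψ hc2 hs2
    have h3 := hort (WithLp.toLp 2 (Pi.single k (tl (dn ψ fun z => star (φ z)))))
      (tl (dn ψ fun z => -star (db k φ z))) ?_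
    · rw [inner_eq] at h3
      have h4 := congrArg star h3
      rw [star_zero] at h4
      have h5 : star (∫ z, (tl (dn ψ fun z => -star (db k φ z))) z *
          star ((tl (up ψ G) - A : Lp ℂ 2 (volume : Measure (Fin m → ℂ))) z)) =
          - ∫ z, h1 z * db k φ z := by
        rw [← integral_neg]
        have h6 : ∀ F : (Fin m → ℂ) → ℂ, star (∫ z, F z) = ∫ z, star (F z) :=
          fun F => integral_conj.symm
        rw [h6]
        refine integral_congr_ae ?_
        filter_upwards [tl_coe ht, tl_coe (memLp_up hψ hG), Lp.coeFn_sub (tl (up ψ G)) A]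
          with z hz1 hz2 hz3
        rw [hz1, hz3, Pi.sub_apply, hz2, star_mul, star_star]
        show (G z * ((Real.exp (-ψ z / 2) : ℝ) : ℂ) - A z) *
          (starRingEnd ℂ) (-star (db k φ z) * ((Real.exp (ψ z / 2) : ℝ) : ℂ)) = _
        rw [map_mul, Complex.conj_ofReal, map_neg]
        have h7 : (starRingEnd ℂ) (star (db k φ z)) = db k φ z := star_star _
        rw [h7]
        calc _ = -(G z * (((Real.exp (ψ z / 2) : ℝ) : ℂ) * ((Real.exp (-ψ z / 2) : ℝ) : ℂ)) -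
              A z * ((Real.exp (ψ z / 2) : ℝ) : ℂ)) * db k φ z := by ring
          _ = -((G z - A z * ((Real.exp (ψ z / 2) : ℝ) : ℂ)) * db k φ z) := by
            rw [exp_half_mul]
            ring
      rw [h5] at h4
      exact neg_eq_zero.1 h4
    · intro φ'
      have hφ' := φ'.2
      rw [inner_tl_tl (memLp_up_cs hψ hφ'.1.continuous hφ'.2.1) ht, PiLp.inner_apply,
        Finset.sum_eq_single k]
      · show _ = inner ℂ (DD ψ φ'.1 k)
          ((Pi.single k (tl (dn ψ fun z => star (φ z))) : Fin m → Lp ℂ 2 volume) k)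
        rw [Pi.single_eq_same, DD_apply, inner_tl_tl (memLp_DD hCAL hψ hφ' k) hN]
        have h8 := ibp_db hIBP k hφ.1 hφ'
        have h9 := congrArg star h8
        have h6 : ∀ F : (Fin m → ℂ) → ℂ, star (∫ z, F z) = ∫ z, star (F z) :=
          fun F => integral_conj.symm
        rw [star_neg, h6, h6] at h9
        have h10 : ∫ z, dn ψ (fun z => -star (db k φ z)) z * star (up ψ φ'.1 z) =
            -∫ z, star (db k φ z * φ'.1 z) := by
          rw [← integral_neg]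
          refine integral_congr_ae (Eventually.of_forall fun z => ?_)
          show -star (db k φ z) * ((Real.exp (ψ z / 2) : ℝ) : ℂ) *
            (starRingEnd ℂ) (φ'.1 z * ((Real.exp (-ψ z / 2) : ℝ) : ℂ)) =
            -star (db k φ z * φ'.1 z)
          rw [map_mul, Complex.conj_ofReal, star_mul]
          show _ * (star (φ'.1 z) * _) = _
          calc _ = -(star (φ'.1 z) * star (db k φ z)) * (((Real.exp (ψ z / 2) : ℝ) : ℂ) *
              ((Real.exp (-ψ z / 2) : ℝ) : ℂ)) := by ring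
            _ = _ := by rw [exp_half_mul, mul_one]
        have h11 : ∫ z, dn ψ (fun z => star (φ z)) z * star (up ψ (db k φ'.1) z) =
            ∫ z, star (φ z * db k φ'.1 z) := by
          refine integral_congr_ae (Eventually.of_forall fun z => ?_)
          show star (φ z) * ((Real.exp (ψ z / 2) : ℝ) : ℂ) *
            (starRingEnd ℂ) (db k φ'.1 z * ((Real.exp (-ψ z / 2) : ℝ) : ℂ)) =
            star (φ z * db k φ'.1 z)
          rw [map_mul, Complex.conj_ofReal, star_mul]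
          show _ * (star (db k φ'.1 z) * _) = _
          calc _ = (star (db k φ'.1 z) * star (φ z)) * (((Real.exp (ψ z / 2) : ℝ) : ℂ) *
              ((Real.exp (-ψ z / 2) : ℝ) : ℂ)) := by ring
            _ = _ := by rw [exp_half_mul, mul_one]
        rw [h10, h11, h9, neg_neg]
      · intro j _ hj
        show inner ℂ (DD ψ φ'.1 j)
          ((Pi.single k (tl (dn ψ fun z => star (φ z))) : Fin m → Lp ℂ 2 volume) j) = 0
        rw [Pi.single_eq_of_ne hj, inner_zero_right]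
      · intro h
        exact absurd (Finset.mem_univ k) h
  obtain ⟨h0, hh0, hae⟩ := hWEY m Set.univ isOpen_univ h1 (L2loc_of_L2 hψ hh1L) hWD
  rw [Measure.restrict_univ] at hae
  have hdiff : Differentiable ℂ h0 := differentiableOn_univ.1 hh0
  have haa : (fun z => G z - h0 z) =ᵐ[volume] dn ψ A := by
    filter_upwards [hae] with z hz
    rw [← hz]
    simp only [h1]
    ring
  have hWT := wt_of_inner hCAL hψ hA
  obtain ⟨γ, hγ, hint, hle⟩ := hBSI m ψ hψs hPsd (fun j => dn ψ (V j)) (dn ψ A)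
    (fun j => hmem _) (hmem _) hWT (cf_of_mem hCAL hψ hV)
  refine ⟨fun j => dn ψ (V j), γ, h0, fun j => hmem _, hγ, hdiff, L2_congr hae hh1L, ?_, hint,
    ?_, ?_⟩
  · intro φ hφ
    rw [inn_congr haa]
    exact hWT φ hφ
  · rw [nrm_congr haa]
    exact hle
  · intro h' hh' hh2
    rw [inn_congr haa]
    exact orth hCAL hψ (fun j => hmem _) (hmem _) hWT hh' hh2

end Pool.Agent.Helper78.KP
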