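import Pool.Agent.Helper68.KP.StR

/-!
# Project KP, module LIM: compactness of derivations
-/

set_option autoImplicit false

namespace Pool.Agent.Helper78.KP

open Pool.Agent.Helper68.KP Filter Topology

/-! ### convergence in coordinates -/

section coord

variable {V V' : Type} [AddCommGroup V] [Module ℂ V] [AddCommGroup V'] [Module ℂ V']
  {N N' : ℕ}

theorem lim_map (ψ : V ≃ₗ[ℂ] (Fin N → ℂ)) (ψ' : V' ≃ₗ[ℂ] (Fin N' → ℂ)) (L : V →ₗ[ℂ] V')
    {u : ℕ → V} {v : V} (h : Tendsto (fun n => ψ (u n)) atTop (𝓝 (ψ v))) :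
    Tendsto (fun n => ψ' (L (u n))) atTop (𝓝 (ψ' (L v))) := by
  have hc : Continuous (ψ'.toLinearMap ∘ₗ L ∘ₗ ψ.symm.toLinearMap) :=
    LinearMap.continuous_of_finiteDimensional _
  have h1 := (hc.tendsto (ψ v)).comp h
  have e : ∀ x : V, (ψ'.toLinearMap ∘ₗ L ∘ₗ ψ.symm.toLinearMap) (ψ x) = ψ' (L x) := by
    intro x
    simp
  rw [e] at h1
  exact h1.congr fun n => e (u n)

theorem expand (ψ : V ≃ₗ[ℂ] (Fin N → ℂ)) (v : V) :
    v = ∑ j, ψ v j • ψ.symm (Pi.single j 1) := by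
  apply ψ.injective
  rw [map_sum]
  simp only [map_smul, LinearEquiv.apply_symm_apply]
  funext i
  simp [Finset.sum_apply, Pi.single_apply]

theorem expand_op (ψ : V ≃ₗ[ℂ] (Fin N → ℂ)) (U : V →ₗ[ℂ] V) (v : V) :
    ψ (U v) = ∑ j, ψ v j • ψ (U (ψ.symm (Pi.single j 1))) := by
  conv_lhs => rw [expand ψ v]
  simp only [map_sum, map_smul]

theorem lim_op (ψ : V ≃ₗ[ℂ] (Fin N → ℂ)) {U : ℕ → V →ₗ[ℂ] V} {U' : V →ₗ[ℂ] V}
    (hU : ∀ g, Tendsto (fun n => ψ (U n g)) atTop (𝓝 (ψ (U' g))))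
    {u : ℕ → V} {v : V} (h : Tendsto (fun n => ψ (u n)) atTop (𝓝 (ψ v))) :
    Tendsto (fun n => ψ (U n (u n))) atTop (𝓝 (ψ (U' v))) := by
  rw [expand_op ψ U' v]
  simp only [fun n => expand_op ψ (U n) (u n)]
  refine tendsto_finsetSum _ fun j _ => ?_
  exact ((tendsto_pi_nhds.1 h) j).smul (hU _)

theorem lim_aeval (ψ : V ≃ₗ[ℂ] (Fin N → ℂ)) {U : ℕ → V →ₗ[ℂ] V} {U' : V →ₗ[ℂ] V}
    (hU : ∀ g, Tendsto (fun n => ψ (U n g)) atTop (𝓝 (ψ (U' g)))) (P : Polynomial ℂ) (v : V) :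
    Tendsto (fun n => ψ (Polynomial.aeval (U n) P v)) atTop (𝓝 (ψ (Polynomial.aeval U' P v))) := by
  induction P using Polynomial.induction_on' generalizing v with
  | add p q hp hq =>
    simp only [map_add, LinearMap.add_apply]
    exact (hp v).add (hq v)
  | monomial i c =>
    simp only [Polynomial.aeval_monomial]
    have h1 : ∀ T : V →ₗ[ℂ] V, (algebraMap ℂ (Module.End ℂ V) c * T ^ i) v = c • (T ^ i) v := by
      intro T
      rw [Module.End.mul_apply, Module.algebraMap_end_apply]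
    simp only [h1, map_smul]
    refine Tendsto.const_smul ?_ c
    clear h1
    induction i with
    | zero =>
      simp only [pow_zero]
      exact tendsto_const_nhds
    | succ i ih =>
      simp only [pow_succ', Module.End.mul_apply]
      exact lim_op ψ hU ih

/-- aeval on a combination of eigenvectors -/
theorem aeval_comb {ι : Type} [Fintype ι] (U : V →ₗ[ℂ] V) (e : ι → V) (w : ι → ℝ)
    (he : ∀ j, U (e j) = (w j : ℂ) • e j) (c : ι → ℂ) (P : Polynomial ℂ) :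
    Polynomial.aeval U P (∑ j, c j • e j) = ∑ j, (c j * P.eval (w j : ℂ)) • e j := by
  rw [map_sum]
  refine Finset.sum_congr rfl fun j _ => ?_
  rw [map_smul, mul_smul]
  congr 1
  induction P using Polynomial.induction_on' with
  | add p q hp hq => rw [map_add, LinearMap.add_apply, hp, hq, Polynomial.eval_add, add_smul]
  | monomial i c =>
    rw [Polynomial.aeval_monomial, Module.End.mul_apply, Module.algebraMap_end_apply,
      Polynomial.eval_monomial, mul_smul]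
    congr 1
    induction i with
    | zero => simp
    | succ i ih => rw [pow_succ', Module.End.mul_apply, ih, map_smul, he, smul_smul, pow_succ]

end coord

/-! ### the inner product in coordinates -/

section ip

variable {V : Type} [AddCommGroup V] [Module ℂ V] {N : ℕ}

/-- the inner product in coordinates -/
noncomputable def cp (ψ : V ≃ₗ[ℂ] (Fin N → ℂ)) (f g : V) : ℂ := ∑ i, ψ f i * star (ψ g i)

theorem cp_comb (ψ : V ≃ₗ[ℂ] (Fin N → ℂ)) {ι : Type} [Fintype ι] [DecidableEq ι] (e : ι → V)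
    (he : ∀ i j, cp ψ (e i) (e j) = if i = j then 1 else 0) (c d : ι → ℂ) :
    cp ψ (∑ j, c j • e j) (∑ j, d j • e j) = ∑ j, c j * star (d j) := by
  have h1 : cp ψ (∑ j, c j • e j) (∑ j, d j • e j) =
      ∑ j, ∑ k, c j * star (d k) * cp ψ (e j) (e k) := by
    unfold cp
    simp only [map_sum, map_smul, Finset.sum_apply, Pi.smul_apply, smul_eq_mul, star_sum, star_mul]
    simp only [Finset.sum_mul_sum]
    rw [Finset.sum_comm]
    refine Finset.sum_congr rfl fun j _ => ?_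
    rw [Finset.sum_comm]
    refine Finset.sum_congr rfl fun k _ => ?_
    rw [Finset.mul_sum]
    refine Finset.sum_congr rfl fun i _ => ?_
    ring
  rw [h1]
  simp only [he, mul_ite, mul_one, mul_zero, Finset.sum_ite_eq, Finset.mem_univ, if_true]

theorem lim_cp (ψ : V ≃ₗ[ℂ] (Fin N → ℂ)) {u u' : ℕ → V} {v v' : V}
    (h : Tendsto (fun n => ψ (u n)) atTop (𝓝 (ψ v)))
    (h' : Tendsto (fun n => ψ (u' n)) atTop (𝓝 (ψ v'))) :
    Tendsto (fun n => cp ψ (u n) (u' n)) atTop (𝓝 (cp ψ v v')) := by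
  unfold cp
  refine tendsto_finsetSum _ fun i _ => ?_
  exact ((tendsto_pi_nhds.1 h) i).mul ((continuous_star.tendsto _).comp ((tendsto_pi_nhds.1 h') i))

theorem cp_self (ψ : V ≃ₗ[ℂ] (Fin N → ℂ)) (v : V) :
    cp ψ v v = ((∑ i, ‖ψ v i‖ ^ 2 : ℝ) : ℂ) := by
  unfold cp
  push_cast
  refine Finset.sum_congr rfl fun i _ => ?_
  show ψ v i * (starRingEnd ℂ) (ψ v i) = _
  rw [Complex.mul_conj, Complex.normSq_eq_norm_sq]
  push_cast
  rfl

theorem norm_sq_le (ψ : V ≃ₗ[ℂ] (Fin N → ℂ)) (v : V) : ‖ψ v‖ ^ 2 ≤ (cp ψ v v).re := by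
  rw [cp_self, Complex.ofReal_re]
  have h0 : 0 ≤ ∑ i, ‖ψ v i‖ ^ 2 := Finset.sum_nonneg fun i _ => by positivity
  have h1 : ‖ψ v‖ ≤ Real.sqrt (∑ i, ‖ψ v i‖ ^ 2) := by
    refine (pi_norm_le_iff_of_nonneg (Real.sqrt_nonneg _)).2 fun i => ?_
    refine Real.le_sqrt_of_sq_le ?_
    exact Finset.single_le_sum (f := fun i => ‖ψ v i‖ ^ 2) (fun i _ => by positivity)
      (Finset.mem_univ i)
  calc ‖ψ v‖ ^ 2 ≤ (Real.sqrt (∑ i, ‖ψ v i‖ ^ 2)) ^ 2 := by gcongr
    _ = _ := Real.sq_sqrt h0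

theorem comb_self (ψ : V ≃ₗ[ℂ] (Fin N → ℂ)) {ι : Type} [Fintype ι] [DecidableEq ι] (e : ι → V)
    (he : ∀ i j, cp ψ (e i) (e j) = if i = j then 1 else 0) (c : ι → ℂ) :
    (cp ψ (∑ j, c j • e j) (∑ j, c j • e j)).re = ∑ j, ‖c j‖ ^ 2 := by
  rw [cp_comb ψ e he, Complex.re_sum]
  refine Finset.sum_congr rfl fun j _ => ?_
  show (c j * (starRingEnd ℂ) (c j)).re = _
  rw [Complex.mul_conj, Complex.normSq_eq_norm_sq, Complex.ofReal_re]

theorem comb_op (ψ : V ≃ₗ[ℂ] (Fin N → ℂ)) {ι : Type} [Fintype ι] [DecidableEq ι] (e : ι → V)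
    (he : ∀ i j, cp ψ (e i) (e j) = if i = j then 1 else 0) (U : V →ₗ[ℂ] V) (w : ι → ℝ)
    (hw : ∀ j, U (e j) = (w j : ℂ) • e j) (c : ι → ℂ) :
    (cp ψ (U (∑ j, c j • e j)) (∑ j, c j • e j)).re = ∑ j, w j * ‖c j‖ ^ 2 := by
  have h1 : U (∑ j, c j • e j) = ∑ j, ((w j : ℂ) * c j) • e j := by
    rw [map_sum]
    refine Finset.sum_congr rfl fun j _ => ?_
    rw [map_smul, hw, smul_smul, mul_comm]
  rw [h1, cp_comb ψ e he, Complex.re_sum]
  refine Finset.sum_congr rfl fun j _ => ?_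
  show ((w j : ℂ) * c j * (starRingEnd ℂ) (c j)).re = _
  rw [mul_assoc, Complex.mul_conj, Complex.normSq_eq_norm_sq, ← Complex.ofReal_mul,
    Complex.ofReal_re]

/-- bound for a self-adjoint operator with eigenvalues in `[-C, C]` -/
theorem norm_op_le (ψ : V ≃ₗ[ℂ] (Fin N → ℂ)) {ι : Type} [Fintype ι] [DecidableEq ι] (e : ι → V)
    (he : ∀ i j, cp ψ (e i) (e j) = if i = j then 1 else 0) (U : V →ₗ[ℂ] V) (w : ι → ℝ)
    (hw : ∀ j, U (e j) = (w j : ℂ) • e j) (C : ℝ) (hC : ∀ j, -C ≤ w j ∧ w j ≤ C)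
    (hspan : Submodule.span ℂ (Set.range e) = ⊤) (f : V) :
    ‖ψ (U f)‖ ^ 2 ≤ C ^ 2 * (cp ψ f f).re := by
  have hf : f ∈ Submodule.span ℂ (Set.range e) := hspan ▸ Submodule.mem_top
  obtain ⟨c, rfl⟩ := (Submodule.mem_span_range_iff_exists_fun ℂ).1 hf
  have h1 : U (∑ j, c j • e j) = ∑ j, ((w j : ℂ) * c j) • e j := by
    rw [map_sum]
    refine Finset.sum_congr rfl fun j _ => ?_
    rw [map_smul, hw, smul_smul, mul_comm]
  refine (norm_sq_le ψ _).trans ?_
  rw [h1, comb_self ψ e he, comb_self ψ e he, Finset.mul_sum]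
  refine Finset.sum_le_sum fun j _ => ?_
  rw [norm_mul, mul_pow, Complex.norm_real, Real.norm_eq_abs, sq_abs]
  refine mul_le_mul_of_nonneg_right ?_ (by positivity)
  exact sq_le_sq' (hC j).1 (hC j).2

/-- closedness -/
theorem closed (ψ : V ≃ₗ[ℂ] (Fin N → ℂ)) {U : ℕ → V →ₗ[ℂ] V} {U' : V →ₗ[ℂ] V}
    (hU : ∀ g, Tendsto (fun n => ψ (U n g)) atTop (𝓝 (ψ (U' g)))) {ι : Type} [Fintype ι]
    [DecidableEq ι] (e : ℕ → ι → V)
    (he : ∀ n i j, cp ψ (e n i) (e n j) = if i = j then 1 else 0) (w : ℕ → ι → ℝ)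
    (hw : ∀ n j, U n (e n j) = (w n j : ℂ) • e n j) (e' : ι → V)
    (he' : ∀ i j, cp ψ (e' i) (e' j) = if i = j then 1 else 0) (w' : ι → ℝ)
    (hw' : ∀ j, U' (e' j) = (w' j : ℂ) • e' j) (y : ℝ) (c' : ι → ℂ)
    (h : ∀ δ : ℝ, 0 < δ → ∀ᶠ n in atTop, ∃ c : ι → ℂ, (∀ j, c j ≠ 0 → y - δ ≤ w n j) ∧
      ∑ j, c' j • e' j = ∑ j, c j • e n j) (j₀ : ι) (hj : c' j₀ ≠ 0) : y ≤ w' j₀ := by
  classical
  by_contra hlt
  push Not at hlt
  obtain ⟨x, hx⟩ : ∃ x, x = w' j₀ := ⟨_, rfl⟩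
  rw [← hx] at hlt
  let P : Polynomial ℂ := ∏ j ∈ Finset.univ.filter (fun j => w' j ≠ x),
    (Polynomial.X - Polynomial.C ((w' j : ℂ)))
  have hP0 : ∀ j, w' j ≠ x → P.eval (w' j : ℂ) = 0 := by
    intro j hj
    rw [Polynomial.eval_prod]
    refine Finset.prod_eq_zero (Finset.mem_filter.2 ⟨Finset.mem_univ j, hj⟩) ?_
    simp
  have hP1 : P.eval (x : ℂ) ≠ 0 := by
    rw [Polynomial.eval_prod]
    refine Finset.prod_ne_zero_iff.2 fun j hj => ?_
    rw [Polynomial.eval_sub, Polynomial.eval_X, Polynomial.eval_C, sub_ne_zero]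
    exact fun h => (Finset.mem_filter.1 hj).2 (by exact_mod_cast h.symm)
  obtain ⟨f, hf⟩ : ∃ f, f = ∑ j, c' j • e' j := ⟨_, rfl⟩
  have hg := lim_aeval ψ hU P f
  have hUg := lim_op ψ hU hg
  have hL := (Complex.continuous_re.tendsto _).comp (lim_cp ψ hUg hg)
  have hR := (Complex.continuous_re.tendsto _).comp (lim_cp ψ hg hg)
  have hδ : 0 < (y - x) / 2 := by linarith
  have hle := le_of_tendsto_of_tendsto (hR.const_mul (y - (y - x) / 2)) hL (by
    filter_upwards [h _ hδ] with n hn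
    obtain ⟨c, hc, hce⟩ := hn
    show (y - (y - x) / 2) * (cp ψ (Polynomial.aeval (U n) P f) (Polynomial.aeval (U n) P f)).re ≤
      (cp ψ (U n (Polynomial.aeval (U n) P f)) (Polynomial.aeval (U n) P f)).re
    rw [hf, hce, aeval_comb (U n) (e n) (w n) (hw n), comb_self ψ (e n) (he n),
      comb_op ψ (e n) (he n) (U n) (w n) (hw n), Finset.mul_sum]
    refine Finset.sum_le_sum fun j _ => ?_
    by_cases hcj : c j = 0
    · rw [hcj, zero_mul, norm_zero]
      simp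
    · exact mul_le_mul_of_nonneg_right (hc j hcj) (by positivity))
  rw [hf, aeval_comb U' e' w' hw', comb_self ψ e' he', comb_op ψ e' he' U' w' hw',
    Finset.mul_sum] at hle
  have hsub : ∑ j, w' j * ‖c' j * P.eval (w' j : ℂ)‖ ^ 2 =
      ∑ j, x * ‖c' j * P.eval (w' j : ℂ)‖ ^ 2 := by
    refine Finset.sum_congr rfl fun j _ => ?_
    by_cases hjx : w' j = x
    · rw [hjx]
    · rw [hP0 j hjx, mul_zero, norm_zero]
      simp
  rw [hsub] at hle
  have hpos : 0 < ‖c' j₀ * P.eval (w' j₀ : ℂ)‖ ^ 2 := by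
    have : c' j₀ * P.eval (w' j₀ : ℂ) ≠ 0 := mul_ne_zero hj (hx ▸ hP1)
    positivity
  have hlt2 : ∑ j, x * ‖c' j * P.eval (w' j : ℂ)‖ ^ 2 <
      ∑ j, (y - (y - x) / 2) * ‖c' j * P.eval (w' j : ℂ)‖ ^ 2 := by
    refine Finset.sum_lt_sum (fun j _ => ?_) ⟨j₀, Finset.mem_univ j₀, ?_⟩
    · exact mul_le_mul_of_nonneg_right (by linarith) (by positivity)
    · exact mul_lt_mul_of_pos_right (by linarith) hpos
  linarith

/-- eigenvalues of an operator which is small in coordinates -/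
theorem eig_small (ψ : V ≃ₗ[ℂ] (Fin N → ℂ)) (T : V →ₗ[ℂ] V) (δ : ℝ)
    (hT : ∑ j, ‖ψ (T (ψ.symm (Pi.single j 1)))‖ ≤ δ) (e : V) (x : ℝ) (he : e ≠ 0)
    (hx : T e = (x : ℂ) • e) : -δ ≤ x ∧ x ≤ δ := by
  have h1 : ‖ψ (T e)‖ ≤ δ * ‖ψ e‖ := by
    rw [expand_op ψ T e]
    refine (norm_sum_le _ _).trans ?_
    refine le_trans ?_ (mul_le_mul_of_nonneg_right hT (norm_nonneg _))
    rw [Finset.sum_mul]
    refine Finset.sum_le_sum fun j _ => ?_
    rw [norm_smul, mul_comm]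
    exact mul_le_mul_of_nonneg_left (norm_le_pi_norm (ψ e) j) (norm_nonneg _)
  rw [hx, map_smul, norm_smul, Complex.norm_real, Real.norm_eq_abs] at h1
  have h2 : 0 < ‖ψ e‖ := norm_pos_iff.2 fun h => he (by simpa using h)
  have h3 : |x| ≤ δ := le_of_mul_le_mul_right h1 h2
  exact abs_le.1 h3

end ip

/-! ### the main theorem -/

section main

variable {A : Type} [CommRing A] [Algebra ℂ A]

/-- multiplication with an element on the right -/
def rmu {E : ℕ → Submodule ℂ A} {M : ℕ} (h : SG E M) (k k' : ℕ) (f' : E k') :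
    E k →ₗ[ℂ] E (k + k') where
  toFun x := ⟨x * f', h.mul k k' x f' x.2 f'.2⟩
  map_add' x y := Subtype.ext (add_mul (x : A) y f')
  map_smul' c x := Subtype.ext (smul_mul_assoc c (x : A) (f' : A))

/-- multiplication with an element on the left -/
def lmu {E : ℕ → Submodule ℂ A} {M : ℕ} (h : SG E M) (k k' : ℕ) (f : E k) :
    E k' →ₗ[ℂ] E (k + k') where
  toFun x := ⟨f * x, h.mul k k' f x f.2 x.2⟩
  map_add' x y := Subtype.ext (mul_add (f : A) x y)
  map_smul' c x := Subtype.ext (mul_smul_comm c (f : A) (x : A))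

theorem DD_eq {E : ℕ → Submodule ℂ A} {M : ℕ} (h : SG E M) {W : ∀ k, E k →ₗ[ℂ] E k}
    (hW : DD E W) (k k' : ℕ) (f : E k) (f' : E k') (g : E (k + k')) (hg : (g : A) = f * f') :
    W (k + k') g = rmu h k k' f' (W k f) + lmu h k k' f (W k' f') :=
  Subtype.ext (hW k k' f f' g hg)

theorem DD_zero {E : ℕ → Submodule ℂ A} {M : ℕ} (h : SG E M) {W : ∀ k, E k →ₗ[ℂ] E k}
    (hW : DD E W) (f : E 0) : W 0 f = 0 := by
  have h1 : (1 : A) ∈ E 0 := by
    rw [h.zero]
    exact Submodule.subset_span rfl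
  have h2 : W 0 ⟨1, h1⟩ = 0 := by
    have h3 := hW 0 0 ⟨1, h1⟩ ⟨1, h1⟩ ⟨1, h1⟩ (by simp)
    have h4 : (W 0 ⟨1, h1⟩ : A) = W 0 ⟨1, h1⟩ * 1 + 1 * W 0 ⟨1, h1⟩ := h3
    rw [mul_one, one_mul] at h4
    exact Subtype.ext (by simpa using h4)
  have h5 : (f : A) ∈ Submodule.span ℂ {(1 : A)} := h.zero ▸ f.2
  obtain ⟨c, hc⟩ := Submodule.mem_span_singleton.1 h5
  have h6 : f = c • ⟨1, h1⟩ := Subtype.ext hc.symm
  rw [h6, map_smul, h2, smul_zero]

theorem hLIM (hONB : StONB) (hEIG : StEIG) : StLIM := by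
  classical
  intro A _ _ E ip M C hSG hHF W hW
  choose ψ hψ using fun k => hONB A E ip k (hSG.fd k) hHF
  have hcp : ∀ k (f g : E k), cp (ψ k) f g = ip f g := fun k f g => (hψ k f g).symm
  -- eigenbases
  have heig : ∀ (W : ∀ k, E k →ₗ[ℂ] E k), SA ip W → ∀ k,
      ∃ (e : Fin (Module.finrank ℂ (E k)) → E k) (w : Fin (Module.finrank ℂ (E k)) → ℝ),
        (∀ i j, cp (ψ k) (e i) (e j) = if i = j then 1 else 0) ∧
        (∀ j, W k (e j) = (w j : ℂ) • e j) ∧ Submodule.span ℂ (Set.range e) = ⊤ ∧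
        ∀ y, GW W k y = Submodule.span ℂ ((fun j => (e j : A)) '' {j | y ≤ w j}) := by
    intro W hW k
    obtain ⟨e, w, h1, h2, -, h4, h5⟩ := hEIG A E ip k (hSG.fd k) hHF W hW
    exact ⟨e, w, fun i j => (hcp k _ _).trans (h1 i j), h2, h4, h5⟩
  -- boundedness
  have hbd : ∀ n (f : E 1), ‖ψ 1 (W n 1 f)‖ ^ 2 ≤ C ^ 2 * (cp (ψ 1) f f).re := by
    intro n f
    obtain ⟨e, w, h1, h2, h3, -⟩ := heig (W n) (hW n).2.1 1
    refine norm_op_le (ψ 1) e h1 (W n 1) w h2 C (fun j => ?_) h3 f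
    refine (hW n).2.2 (e j) (w j) (fun h0 => ?_) (h2 j)
    have := h1 j j
    rw [h0, if_pos rfl] at this
    simp [cp] at this
  let b : Fin (Module.finrank ℂ (E 1)) → E 1 := fun j => (ψ 1).symm (Pi.single j 1)
  let R : ℝ := ∑ j, Real.sqrt (C ^ 2 * (cp (ψ 1) (b j) (b j)).re)
  have hmem : ∀ n, (fun j => ψ 1 (W n 1 (b j))) ∈
      Metric.closedBall (0 : Fin (Module.finrank ℂ (E 1)) → Fin (Module.finrank ℂ (E 1)) → ℂ) R := by
    intro n
    rw [mem_closedBall_zero_iff]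
    refine (pi_norm_le_iff_of_nonneg (Finset.sum_nonneg fun j _ => Real.sqrt_nonneg _)).2
      fun j => ?_
    exact (Real.le_sqrt_of_sq_le (hbd n (b j))).trans
      (Finset.single_le_sum (f := fun j => Real.sqrt (C ^ 2 * (cp (ψ 1) (b j) (b j)).re))
        (fun j _ => Real.sqrt_nonneg _) (Finset.mem_univ j))
  obtain ⟨a, -, φ, hφ, hlim⟩ := tendsto_subseq_of_bounded Metric.isBounded_closedBall hmem
  -- convergence in every degree
  have hex : ∀ k (f : E k), ∃ v : E k,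
      Tendsto (fun n => ψ k (W (φ n) k f)) atTop (𝓝 (ψ k v)) := by
    intro k
    induction k with
    | zero =>
      intro f
      refine ⟨0, ?_⟩
      simp only [fun n => DD_zero hSG (hW (φ n)).1 f]
      exact tendsto_const_nhds
    | succ k ih =>
      have h1 : ∀ f : E 1, ∃ v : E 1, Tendsto (fun n => ψ 1 (W (φ n) 1 f)) atTop (𝓝 (ψ 1 v)) := by
        intro f
        refine ⟨(ψ 1).symm (∑ j, ψ 1 f j • a j), ?_⟩
        rw [LinearEquiv.apply_symm_apply]
        simp only [fun n => expand_op (ψ 1) (W (φ n) 1) f]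
        refine tendsto_finsetSum _ fun j _ => ?_
        exact Tendsto.const_smul ((tendsto_pi_nhds.1 hlim) j) _
      rcases Nat.eq_zero_or_pos k with rfl | hk
      · exact h1
      · let T : Submodule ℂ (E (k + 1)) :=
          { carrier := {g | ∃ v : E (k + 1),
              Tendsto (fun n => ψ (k + 1) (W (φ n) (k + 1) g)) atTop (𝓝 (ψ (k + 1) v))}
            add_mem' := by
              rintro g g' ⟨v, hv⟩ ⟨v', hv'⟩
              refine ⟨v + v', ?_⟩
              simp only [map_add]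
              exact hv.add hv'
            zero_mem' := ⟨0, by simp only [map_zero]; exact tendsto_const_nhds⟩
            smul_mem' := by
              rintro c g ⟨v, hv⟩
              refine ⟨c • v, ?_⟩
              simp only [map_smul]
              exact hv.const_smul c }
        have hT : E (k + 1) ≤ T.map (E (k + 1)).subtype := by
          conv_lhs => rw [hSG.gen k hk]
          refine Submodule.span_le.2 ?_
          rintro _ ⟨f, f', hf, hf', rfl⟩
          obtain ⟨v, hv⟩ := ih ⟨f, hf⟩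
          obtain ⟨v', hv'⟩ := h1 ⟨f', hf'⟩
          refine ⟨⟨f * f', hSG.mul k 1 f f' hf hf'⟩, ?_, rfl⟩
          refine ⟨rmu hSG k 1 ⟨f', hf'⟩ v + lmu hSG k 1 ⟨f, hf⟩ v', ?_⟩
          have h2 : ∀ n, W (φ n) (k + 1) ⟨f * f', hSG.mul k 1 f f' hf hf'⟩ =
              rmu hSG k 1 ⟨f', hf'⟩ (W (φ n) k ⟨f, hf⟩) +
                lmu hSG k 1 ⟨f, hf⟩ (W (φ n) 1 ⟨f', hf'⟩) :=
            fun n => DD_eq hSG (hW (φ n)).1 k 1 ⟨f, hf⟩ ⟨f', hf'⟩ _ rfl
          simp only [h2, map_add]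
          exact (lim_map (ψ k) (ψ (k + 1)) (rmu hSG k 1 ⟨f', hf'⟩) hv).add
            (lim_map (ψ 1) (ψ (k + 1)) (lmu hSG k 1 ⟨f, hf⟩) hv')
        intro g
        obtain ⟨g', hg', hgg⟩ := hT g.2
        have : g' = g := Subtype.ext hgg
        rw [← this]
        exact hg'
  choose v hv using hex
  let W' : ∀ k, E k →ₗ[ℂ] E k := fun k =>
    { toFun := v k
      map_add' := by
        intro f g
        apply (ψ k).injective
        rw [map_add]
        refine tendsto_nhds_unique (hv k (f + g)) ?_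
        simp only [map_add]
        exact (hv k f).add (hv k g)
      map_smul' := by
        intro c f
        apply (ψ k).injective
        rw [map_smul]
        refine tendsto_nhds_unique (hv k (c • f)) ?_
        simp only [map_smul]
        exact (hv k f).const_smul c }
  have hW' : ∀ k (f : E k), Tendsto (fun n => ψ k (W (φ n) k f)) atTop (𝓝 (ψ k (W' k f))) := hv
  have hDD : DD E W' := by
    intro k k' f f' g hg
    have h1 : W' (k + k') g = rmu hSG k k' f' (W' k f) + lmu hSG k k' f (W' k' f') := by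
      apply (ψ (k + k')).injective
      refine tendsto_nhds_unique (hW' (k + k') g) ?_
      simp only [fun n => DD_eq hSG (hW (φ n)).1 k k' f f' g hg, map_add]
      exact (lim_map (ψ k) (ψ (k + k')) (rmu hSG k k' f') (hW' k f)).add
        (lim_map (ψ k') (ψ (k + k')) (lmu hSG k k' f) (hW' k' f'))
    exact congrArg Subtype.val h1
  have hSA : SA ip W' := by
    intro k f g
    rw [← hcp, ← hcp]
    have h1 := lim_cp (ψ k) (hW' k f) (tendsto_const_nhds (x := ψ k g))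
    have h2 := lim_cp (ψ k) (tendsto_const_nhds (x := ψ k f)) (hW' k g)
    refine tendsto_nhds_unique h1 (h2.congr fun n => ?_)
    rw [hcp, hcp]
    exact ((hW (φ n)).2.1 k f g).symm
  refine ⟨W', φ, hφ, hDD, hSA, ?_, ?_⟩
  · intro k f y hf hev
    choose e w he hw hsp hG using fun n => heig (W (φ n)) (hW (φ n)).2.1 k
    obtain ⟨e', w', he', hw', hsp', hG'⟩ := heig W' hSA k
    have hfs : (⟨f, hf⟩ : E k) ∈ Submodule.span ℂ (Set.range e') := hsp' ▸ Submodule.mem_top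
    obtain ⟨c', hc'⟩ := (Submodule.mem_span_range_iff_exists_fun ℂ).1 hfs
    have hcl : ∀ j, c' j ≠ 0 → y ≤ w' j := by
      intro j₀ hj₀
      refine closed (ψ k) (fun g => hW' k g) e he w hw e' he' w' hw' y c' ?_ j₀ hj₀
      intro δ hδ
      filter_upwards [hev δ hδ] with n hn
      rw [hG n, Finsupp.mem_span_image_iff_linearCombination] at hn
      obtain ⟨l, hl, hle⟩ := hn
      refine ⟨l, fun j hj => ?_, ?_⟩
      · exact (Finsupp.mem_supported ℂ l).1 hl (Finsupp.mem_support_iff.2 hj)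
      · rw [hc']
        apply Subtype.ext
        have h3 : l.sum (fun i a => a • (e n i : A)) = ∑ j, l j • (e n j : A) :=
          Finsupp.sum_fintype _ _ (fun i => zero_smul ℂ _)
        rw [Finsupp.linearCombination_apply, h3] at hle
        rw [Submodule.coe_sum]
        exact hle.symm
    rw [hG']
    have hfe : f = ∑ j, c' j • (e' j : A) := by
      have := congrArg Subtype.val hc'
      rw [Submodule.coe_sum] at this
      exact this.symm
    rw [hfe]
    refine Submodule.sum_mem _ fun j _ => ?_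
    by_cases hj : c' j = 0
    · rw [hj, zero_smul]
      exact Submodule.zero_mem _
    · exact Submodule.smul_mem _ _ (Submodule.subset_span ⟨j, hcl j hj, rfl⟩)
  · intro δ hδ
    have h1 : Tendsto (fun n => ∑ j, ‖ψ 1 ((W' 1 - W (φ n) 1) ((ψ 1).symm (Pi.single j 1)))‖) atTop
        (𝓝 0) := by
      rw [← Finset.sum_const_zero (s := (Finset.univ : Finset (Fin (Module.finrank ℂ (E 1)))))]
      refine tendsto_finsetSum _ fun j _ => ?_
      have h2 := ((tendsto_const_nhds (x := ψ 1 (W' 1 ((ψ 1).symm (Pi.single j 1))))).sub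
        (hW' 1 ((ψ 1).symm (Pi.single j 1)))).norm
      rw [sub_self, norm_zero] at h2
      refine h2.congr fun n => ?_
      rw [LinearMap.sub_apply, map_sub]
    filter_upwards [h1.eventually (eventually_le_nhds hδ)] with n hn e x he hx
    exact eig_small (ψ 1) _ δ hn e x he hx

end main

end Pool.Agent.Helper78.KP
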